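import Mathlib

/-!
# Odd primes and the period bound for additive automata at prime powers (MP_25c86d_nt, Q1)

For an odd prime `p` and all `σ ≥ 1`, `m ≥ 2` we prove `π_σ(p^m) ≥ p * π_σ(p^(m-1))`.
Hence a strict inequality `π_σ(p^m) < ub_σ(p^m) = p * π_σ(p^(m-1))` with `m ≥ 2` forces `p = 2`.

Outline.  Write `u = a + b x` in `A = ℤ[x]/(x^σ - 1)`.
* If `T` is a period of `u` modulo `p^j` then `p T` is a period modulo `p^(j+1)` (`IsPer.step`), and
  for odd `p` once the period grows by the factor `p` it grows for ever (`IsPer.down`).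
* So everything reduces to finding a pair `(a, b)` whose period modulo `p` is the maximal one, `T`,
  such that `T` is not a period modulo `p^2` (`exists_good`).
* If `p` does not divide `σ` then `p` does not divide `T`, and one of `u`, `(1 + p) u` works.
* If `p^k` exactly divides `σ`, `k ≥ 1`, every nondegenerate pair (`p` divides neither `a` nor `b`)
  with maximal period works: this is seen by projecting onto the exponents congruent to
  `p^(k-1)` modulo `p^k` (`claimC`).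
* A nondegenerate pair has maximal period, because all periods modulo `p` of `w (1 + x)`, where
  `2 w` is a primitive root modulo `p`, are multiples of `σ` and of `p - 1`
  (`exists_special`), while degenerate pairs have a period dividing `lcm(σ, p - 1)`.
-/

open Polynomial

namespace Pool.Agent.Results.MP_25c86d_nt.OddPrimes

/-- The ring `R_{σ,n} = (ℤ/n)[x]/(x^σ - 1)`. -/
abbrev Rring (σ n : ℕ) : Type := (ZMod n)[X] ⧸ Ideal.span {(X ^ σ - 1 : (ZMod n)[X])}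

/-- The class of `a + b x` in `R_{σ,n}` (the automaton rule `f(c₀,c₁) = b c₀ + a c₁`). -/
noncomputable def rule (σ n : ℕ) (a b : ZMod n) : Rring σ n :=
  Ideal.Quotient.mk _ (C a + C b * X)

/-- The period `Π_σ(a,b;n)`: least `k ≥ 1` with `(a+bx)^(k+ℓ) = (a+bx)^ℓ` for some `ℓ ≥ 0`. -/
noncomputable def period (σ n : ℕ) (a b : ZMod n) : ℕ :=
  sInf {k : ℕ | 1 ≤ k ∧ ∃ l : ℕ, rule σ n a b ^ (k + l) = rule σ n a b ^ l}

/-- `π_σ(n)`: the maximum of `Π_σ(a,b;n)` over all `a, b ∈ ℤ/n`. -/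
noncomputable def maxPeriod (σ n : ℕ) : ℕ :=
  sSup {k : ℕ | ∃ a b : ZMod n, k = period σ n a b}

section Abstract
variable {A : Type*} [CommRing A]

/-- `k` is a period of the powers of `u` modulo `N`. -/
def IsPer (N u : A) (k : ℕ) : Prop := ∃ l : ℕ, N ∣ u ^ (k + l) - u ^ l

theorem IsPer.lift {N u : A} {k l : ℕ} (h : N ∣ u ^ (k + l) - u ^ l) (m : ℕ) (hm : l ≤ m) :
    N ∣ u ^ (k + m) - u ^ m := by
  obtain ⟨d, rfl⟩ := Nat.exists_eq_add_of_le hm
  have : u ^ (k + (l + d)) - u ^ (l + d) = (u ^ (k + l) - u ^ l) * u ^ d := by ring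
  rw [this]
  exact Dvd.dvd.mul_right h _

theorem IsPer.zero (N u : A) : IsPer N u 0 := ⟨0, by simp⟩

theorem IsPer.add {N u : A} {j k : ℕ} (hj : IsPer N u j) (hk : IsPer N u k) :
    IsPer N u (j + k) := by
  obtain ⟨l, hl⟩ := hj
  obtain ⟨m, hm⟩ := hk
  have h1 := IsPer.lift hl (l + m) (Nat.le_add_right _ _)
  have h2 := IsPer.lift hm (l + m) (Nat.le_add_left _ _)
  refine ⟨l + m, ?_⟩
  have : u ^ (j + k + (l + m)) - u ^ (l + m)
      = (u ^ (j + (l + m)) - u ^ (l + m)) * u ^ k + (u ^ (k + (l + m)) - u ^ (l + m)) := by ring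
  rw [this]
  exact dvd_add (Dvd.dvd.mul_right h1 _) h2

theorem IsPer.sub {N u : A} {j k : ℕ} (hj : IsPer N u (j + k)) (hk : IsPer N u k) :
    IsPer N u j := by
  obtain ⟨l, hl⟩ := hj
  obtain ⟨m, hm⟩ := hk
  have h1 := IsPer.lift hl (l + m) (Nat.le_add_right _ _)
  have h2 := IsPer.lift hm (j + (l + m)) (by omega)
  refine ⟨l + m, ?_⟩
  have : u ^ (j + (l + m)) - u ^ (l + m)
      = (u ^ (j + k + (l + m)) - u ^ (l + m)) - (u ^ (k + (j + (l + m))) - u ^ (j + (l + m))) := by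
    ring
  rw [this]
  exact dvd_sub h1 h2

theorem IsPer.mul {N u : A} {k : ℕ} (hk : IsPer N u k) (c : ℕ) : IsPer N u (c * k) := by
  induction c with
  | zero => simpa using IsPer.zero N u
  | succ c ih => rw [Nat.succ_mul]; exact ih.add hk

theorem IsPer.mod {N u : A} {j k : ℕ} (hj : IsPer N u j) (hk : IsPer N u k) :
    IsPer N u (j % k) := by
  have h : IsPer N u (j % k + (j / k) * k) := by
    rw [Nat.mod_add_div']; exact hj
  exact h.sub (hk.mul _)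

theorem IsPer.mono {M N u : A} {k : ℕ} (h : M ∣ N) (hk : IsPer N u k) : IsPer M u k := by
  obtain ⟨l, hl⟩ := hk
  exact ⟨l, h.trans hl⟩

/-- raising the modulus by one power of `p` multiplies a period by `p`. -/
theorem IsPer.step {p : ℕ} {u : A} {j T : ℕ} (hj : 1 ≤ j) (h : IsPer ((p : A) ^ j) u T) :
    IsPer ((p : A) ^ (j + 1)) u (p * T) := by
  obtain ⟨l, hl⟩ := h
  refine ⟨2 * l, ?_⟩
  have e1 : u ^ (T + l) - u ^ l = u ^ l * (u ^ T - 1) := by ring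
  rw [e1] at hl
  have e2 : u ^ (p * T + 2 * l) - u ^ (2 * l)
      = (u ^ l * (u ^ T - 1)) * (u ^ l * ∑ i ∈ Finset.range p, (u ^ T) ^ i) := by
    have := mul_geom_sum (u ^ T) p
    have e3 : (u ^ T) ^ p = u ^ (p * T) := by rw [← pow_mul, mul_comm]
    rw [e3] at this
    calc u ^ (p * T + 2 * l) - u ^ (2 * l) = u ^ l * u ^ l * (u ^ (p * T) - 1) := by ring
      _ = _ := by rw [← this]; ring
  rw [e2, pow_succ]
  refine mul_dvd_mul hl ?_
  have h3 : ∀ i : ℕ, (p : A) ∣ u ^ l * (u ^ T) ^ i - u ^ l := by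
    intro i
    have h4 : (u ^ T - 1) ∣ (u ^ T) ^ i - 1 := by
      simpa using sub_dvd_pow_sub_pow (u ^ T) 1 i
    obtain ⟨c, hc⟩ := h4
    have : u ^ l * (u ^ T) ^ i - u ^ l = (u ^ l * (u ^ T - 1)) * c := by
      calc u ^ l * (u ^ T) ^ i - u ^ l = u ^ l * ((u ^ T) ^ i - 1) := by ring
        _ = _ := by rw [hc]; ring
    rw [this]
    exact Dvd.dvd.mul_right ((dvd_pow_self _ (by omega)).trans hl) _
  have h5 : u ^ l * ∑ i ∈ Finset.range p, (u ^ T) ^ i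
      = ∑ i ∈ Finset.range p, (u ^ l * (u ^ T) ^ i - u ^ l) + (p : A) * u ^ l := by
    rw [Finset.sum_sub_distrib, Finset.mul_sum]
    simp
  rw [h5]
  exact dvd_add (Finset.dvd_sum fun i _ => h3 i) (Dvd.intro _ rfl)

/-- growth lemma, `p` odd: if `p*T` is a period modulo `p^(j+2)` then `T` is a period modulo
`p^(j+1)`. -/
theorem IsPer.down {p : ℕ} (hp : Odd p) (hreg : ∀ v w : A, (p : A) * v = (p : A) * w → v = w)
    {u : A} {j T : ℕ} (hj : 1 ≤ j) (h : IsPer ((p : A) ^ j) u T)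
    (h2 : IsPer ((p : A) ^ (j + 2)) u (p * T)) :
    IsPer ((p : A) ^ (j + 1)) u T := by
  obtain ⟨l, hl⟩ := h
  obtain ⟨L, hL⟩ := h2
  have hregp : ∀ (n : ℕ) (v w : A), (p : A) ^ n * v = (p : A) ^ n * w → v = w := by
    intro n
    induction n with
    | zero => intro v w h; simpa using h
    | succ n ih =>
      intro v w h
      apply ih
      apply hreg
      rw [← mul_assoc, ← mul_assoc, ← pow_succ', h]
  have e1 : u ^ (T + l) - u ^ l = u ^ l * (u ^ T - 1) := by ring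
  rw [e1] at hl
  obtain ⟨v, hv⟩ := hl
  -- geometric sums
  set s : A := u ^ T with hs
  set H : A := ∑ i ∈ Finset.range p, ∑ k ∈ Finset.range i, s ^ k with hH
  have hG : ∑ i ∈ Finset.range p, s ^ i = (p : A) + (s - 1) * H := by
    have : ∀ i ∈ Finset.range p, s ^ i = 1 + (s - 1) * ∑ k ∈ Finset.range i, s ^ k := by
      intro i _
      rw [mul_geom_sum]; ring
    rw [Finset.sum_congr rfl this, Finset.sum_add_distrib, ← Finset.mul_sum]
    simp [hH]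
  have hdiv : ∀ i : ℕ, (p : A) ∣ u ^ l * s ^ i - u ^ l := by
    intro i
    have h4 : (s - 1) ∣ s ^ i - 1 := by
      simpa using sub_dvd_pow_sub_pow s 1 i
    obtain ⟨c, hc⟩ := h4
    have : u ^ l * s ^ i - u ^ l = (u ^ l * (s - 1)) * c := by
      calc u ^ l * s ^ i - u ^ l = u ^ l * (s ^ i - 1) := by ring
        _ = _ := by rw [hc]; ring
    rw [this, hv]
    exact Dvd.dvd.mul_right (Dvd.dvd.mul_right (dvd_pow_self _ (by omega)) _) _
  have hHdiv : (p : A) ∣ u ^ l * H := by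
    have e : u ^ l * H = ∑ i ∈ Finset.range p, ∑ k ∈ Finset.range i, (u ^ l * s ^ k - u ^ l)
        + (∑ i ∈ Finset.range p, (i : A)) * u ^ l := by
      rw [hH, Finset.mul_sum, Finset.sum_mul, ← Finset.sum_add_distrib]
      refine Finset.sum_congr rfl fun i _ => ?_
      rw [Finset.mul_sum, Finset.sum_sub_distrib]
      simp
    rw [e]
    refine dvd_add (Finset.dvd_sum fun i _ => Finset.dvd_sum fun k _ => hdiv k) ?_
    refine Dvd.dvd.mul_right ?_ _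
    have : (∑ i ∈ Finset.range p, (i : A)) = ((∑ i ∈ Finset.range p, i : ℕ) : A) := by
      push_cast; rfl
    rw [this]
    obtain ⟨m, hm⟩ := hp
    have h6 : (∑ i ∈ Finset.range p, i) = p * m := by
      have h7 := Finset.sum_range_id_mul_two p
      have h8 : p - 1 = 2 * m := by omega
      rw [h8] at h7
      have : (∑ i ∈ Finset.range p, i) * 2 = (p * m) * 2 := by rw [h7]; ring
      omega
    rw [h6]
    push_cast
    exact Dvd.intro _ rfl
  obtain ⟨h, hh⟩ := hHdiv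
  -- main identity
  have hmain : u ^ (3 * l) * (u ^ (p * T) - 1)
      = (p : A) ^ (j + 1) * (v * (u ^ (2 * l) + (p : A) ^ j * v * h)) := by
    have e3 : u ^ (p * T) - 1 = (s - 1) * ∑ i ∈ Finset.range p, s ^ i := by
      rw [mul_geom_sum, hs, ← pow_mul, mul_comm T p]
    rw [e3, hG]
    calc u ^ (3 * l) * ((s - 1) * ((p : A) + (s - 1) * H))
        = (u ^ l * (s - 1)) * ((p : A) * u ^ (2 * l) + (u ^ l * (s - 1)) * (u ^ l * H)) := by ring
      _ = _ := by rw [hv, hh]; ring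
  obtain ⟨q, hq⟩ := hL
  have e4 : (p : A) ^ (j + 1) * (u ^ L * (v * (u ^ (2 * l) + (p : A) ^ j * v * h)))
      = (p : A) ^ (j + 1) * ((p : A) * (u ^ (3 * l) * q)) := by
    calc (p : A) ^ (j + 1) * (u ^ L * (v * (u ^ (2 * l) + (p : A) ^ j * v * h)))
        = u ^ L * ((p : A) ^ (j + 1) * (v * (u ^ (2 * l) + (p : A) ^ j * v * h))) := by ring
      _ = u ^ (3 * l) * (u ^ (p * T + L) - u ^ L) := by rw [← hmain]; ring
      _ = u ^ (3 * l) * ((p : A) ^ (j + 2) * q) := by rw [hq]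
      _ = _ := by ring
  have e5 := hregp _ _ _ e4
  refine ⟨l + L + 2 * l, ?_⟩
  have e6 : u ^ (T + (l + L + 2 * l)) - u ^ (l + L + 2 * l)
      = u ^ L * u ^ (2 * l) * (u ^ l * (s - 1)) := by rw [hs]; ring
  rw [e6, hv]
  obtain ⟨i, rfl⟩ := Nat.exists_eq_add_of_le hj
  have e7 : u ^ L * u ^ (2 * l) * ((p : A) ^ (1 + i) * v)
      = (p : A) ^ (1 + i + 1) * (u ^ (3 * l) * q - u ^ L * v * (p : A) ^ i * v * h) := by
    calc u ^ L * u ^ (2 * l) * ((p : A) ^ (1 + i) * v)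
        = (p : A) ^ (1 + i) * (u ^ L * (v * (u ^ (2 * l) + (p : A) ^ (1 + i) * v * h)))
          - (p : A) ^ (1 + i) * (u ^ L * (v * ((p : A) ^ (1 + i) * v * h))) := by ring
      _ = _ := by rw [e5]; ring
  rw [e7]
  exact Dvd.intro _ rfl

end Abstract


noncomputable abbrev AZ (σ : ℕ) : Type := ℤ[X] ⧸ Ideal.span {(X ^ σ - 1 : ℤ[X])}

noncomputable def uZ (σ : ℕ) (a b : ℤ) : AZ σ := Ideal.Quotient.mk _ (C a + C b * X)

theorem AZ_dvd_iff (σ : ℕ) (N : ℕ) (f : ℤ[X]) :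
    ((N : AZ σ) ∣ Ideal.Quotient.mk _ f) ↔ ∃ q r : ℤ[X], f = (X ^ σ - 1) * q + (N : ℤ[X]) * r := by
  constructor
  · rintro ⟨c, hc⟩
    obtain ⟨r, rfl⟩ := Ideal.Quotient.mk_surjective c
    have h : (Ideal.Quotient.mk (Ideal.span {(X ^ σ - 1 : ℤ[X])})) f
        = (Ideal.Quotient.mk _) ((N : ℤ[X]) * r) := by
      rw [hc]; simp
    rw [Ideal.Quotient.eq, Ideal.mem_span_singleton] at h
    obtain ⟨q, hq⟩ := h
    exact ⟨q, r, by rw [← hq]; ring⟩
  · rintro ⟨q, r, rfl⟩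
    refine ⟨Ideal.Quotient.mk _ r, ?_⟩
    have h : (Ideal.Quotient.mk (Ideal.span {(X ^ σ - 1 : ℤ[X])})) ((X ^ σ - 1) * q + (N : ℤ[X]) * r)
        = (Ideal.Quotient.mk _) ((N : ℤ[X]) * r) := by
      rw [Ideal.Quotient.eq, Ideal.mem_span_singleton]
      exact ⟨q, by ring⟩
    rw [h]; simp

theorem rule_pow_eq_iff (σ n : ℕ) (a b : ℤ) (k l : ℕ) :
    rule σ n (a : ZMod n) (b : ZMod n) ^ k = rule σ n (a : ZMod n) (b : ZMod n) ^ l
      ↔ ((n : ℕ) : AZ σ) ∣ uZ σ a b ^ k - uZ σ a b ^ l := by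
  have e1 : uZ σ a b ^ k - uZ σ a b ^ l
      = Ideal.Quotient.mk _ ((C a + C b * X) ^ k - (C a + C b * X) ^ l) := by
    simp [uZ]
  have e2 : (rule σ n (a : ZMod n) (b : ZMod n) ^ k = rule σ n (a : ZMod n) (b : ZMod n) ^ l)
      ↔ (X ^ σ - 1 : (ZMod n)[X]) ∣
        ((C (a : ZMod n) + C (b : ZMod n) * X) ^ k - (C (a : ZMod n) + C (b : ZMod n) * X) ^ l) := by
    unfold rule
    rw [← map_pow, ← map_pow, Ideal.Quotient.eq, Ideal.mem_span_singleton]
  rw [e1, e2, AZ_dvd_iff]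
  set F : ℤ[X] := (C a + C b * X) ^ k - (C a + C b * X) ^ l with hF
  have hmap : (C (a : ZMod n) + C (b : ZMod n) * X) ^ k - (C (a : ZMod n) + C (b : ZMod n) * X) ^ l
      = F.map (Int.castRingHom (ZMod n)) := by
    simp [hF]
  rw [hmap]
  constructor
  · rintro ⟨q', hq'⟩
    obtain ⟨q, rfl⟩ := Polynomial.map_surjective (Int.castRingHom (ZMod n))
      (ZMod.intCast_surjective) q'
    have h0 : (F - (X ^ σ - 1) * q).map (Int.castRingHom (ZMod n)) = 0 := by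
      rw [Polynomial.map_sub, hq']
      simp
    have h1 : (C (n : ℤ)) ∣ (F - (X ^ σ - 1) * q) := by
      rw [C_dvd_iff_dvd_coeff]
      intro i
      have h2 := congrArg (fun f => Polynomial.coeff f i) h0
      simp only [Polynomial.coeff_map, Polynomial.coeff_zero] at h2
      exact (ZMod.intCast_zmod_eq_zero_iff_dvd _ _).mp h2
    obtain ⟨r, hr⟩ := h1
    refine ⟨q, r, ?_⟩
    have : (C (n : ℤ) : ℤ[X]) = (n : ℤ[X]) := by simp
    rw [← this, ← hr]; ring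
  · rintro ⟨q, r, hqr⟩
    refine ⟨q.map (Int.castRingHom (ZMod n)), ?_⟩
    rw [hqr]
    simp

theorem X_pow_sub_one_not_dvd {p : ℕ} (hp : p.Prime) {σ : ℕ} (hσ : 1 ≤ σ) :
    ¬ (C (p : ℤ) ∣ (X ^ σ - 1 : ℤ[X])) := by
  intro h
  rw [C_dvd_iff_dvd_coeff] at h
  have h1 := h σ
  have h2 : (X ^ σ - 1 : ℤ[X]).coeff σ = 1 := by
    rw [coeff_sub, coeff_X_pow, coeff_one]
    simp
    omega
  rw [h2] at h1
  have := Int.natAbs_dvd_natAbs.mpr h1
  simp at this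
  exact hp.one_lt.ne' this

theorem dvd_of_dvd_X_pow_sub_one_mul {p : ℕ} (hp : p.Prime) {σ : ℕ} (hσ : 1 ≤ σ) {q r : ℤ[X]}
    (h : (X ^ σ - 1) * q = (p : ℤ[X]) * r) : ∃ q' : ℤ[X], q = (p : ℤ[X]) * q' := by
  have hprime : Prime (C (p : ℤ)) := by
    rw [Polynomial.prime_C_iff]
    exact Nat.prime_iff_prime_int.mp hp
  have hc : (C (p : ℤ) : ℤ[X]) = (p : ℤ[X]) := by simp
  have hd : C (p : ℤ) ∣ (X ^ σ - 1) * q := ⟨r, by rw [h, hc]⟩
  rcases hprime.dvd_or_dvd hd with h1 | h1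
  · exact absurd h1 (X_pow_sub_one_not_dvd hp hσ)
  · obtain ⟨q', hq'⟩ := h1
    exact ⟨q', by rw [hq', hc]⟩

theorem AZ_reg {p : ℕ} (hp : p.Prime) {σ : ℕ} (hσ : 1 ≤ σ) (v w : AZ σ)
    (h : (p : AZ σ) * v = (p : AZ σ) * w) : v = w := by
  obtain ⟨f, rfl⟩ := Ideal.Quotient.mk_surjective v
  obtain ⟨g, rfl⟩ := Ideal.Quotient.mk_surjective w
  have h1 : (Ideal.Quotient.mk (Ideal.span {(X ^ σ - 1 : ℤ[X])})) ((p : ℤ[X]) * f)
      = (Ideal.Quotient.mk _) ((p : ℤ[X]) * g) := by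
    simpa using h
  rw [Ideal.Quotient.eq, Ideal.mem_span_singleton] at h1
  obtain ⟨q, hq⟩ := h1
  have h2 : (X ^ σ - 1) * q = (p : ℤ[X]) * (f - g) := by rw [← hq]; ring
  obtain ⟨q', rfl⟩ := dvd_of_dvd_X_pow_sub_one_mul hp hσ h2
  rw [Ideal.Quotient.eq, Ideal.mem_span_singleton]
  refine ⟨q', ?_⟩
  have hp0 : (p : ℤ[X]) ≠ 0 := by
    exact_mod_cast hp.ne_zero
  apply mul_left_cancel₀ hp0
  rw [← h2]; ring



/-- projection of a polynomial to the exponents congruent to `r` modulo `q` -/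
noncomputable def proj (q r : ℕ) (f : ℤ[X]) : ℤ[X] :=
  ∑ i ∈ f.support.filter (fun i => i % q = r), monomial i (f.coeff i)

theorem proj_coeff (q r : ℕ) (f : ℤ[X]) (j : ℕ) :
    (proj q r f).coeff j = if j % q = r then f.coeff j else 0 := by
  unfold proj
  rw [finsetSum_coeff]
  simp only [coeff_monomial]
  rw [Finset.sum_ite_eq']
  by_cases h : j % q = r
  · by_cases h2 : f.coeff j = 0
    · simp [h2]
    · simp [h, h2]
  · simp [h]

theorem proj_add (q r : ℕ) (f g : ℤ[X]) : proj q r (f + g) = proj q r f + proj q r g := by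
  ext j
  simp only [proj_coeff, coeff_add]
  split_ifs <;> simp

theorem proj_sub (q r : ℕ) (f g : ℤ[X]) : proj q r (f - g) = proj q r f - proj q r g := by
  ext j
  simp only [proj_coeff, coeff_sub]
  split_ifs <;> simp

theorem proj_sum {ι : Type*} (q r : ℕ) (s : Finset ι) (f : ι → ℤ[X]) :
    proj q r (∑ i ∈ s, f i) = ∑ i ∈ s, proj q r (f i) := by
  ext j
  simp only [proj_coeff, finsetSum_coeff]
  split_ifs <;> simp

/-- polynomials `g` commuting with the projection -/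
def Good (q r : ℕ) (g : ℤ[X]) : Prop := ∀ f, proj q r (g * f) = g * proj q r f

theorem Good.add {q r : ℕ} {g h : ℤ[X]} (hg : Good q r g) (hh : Good q r h) :
    Good q r (g + h) := by
  intro f
  rw [add_mul, proj_add, hg f, hh f, add_mul]

theorem Good.sub {q r : ℕ} {g h : ℤ[X]} (hg : Good q r g) (hh : Good q r h) :
    Good q r (g - h) := by
  intro f
  rw [sub_mul, proj_sub, hg f, hh f, sub_mul]

theorem Good.mul {q r : ℕ} {g h : ℤ[X]} (hg : Good q r g) (hh : Good q r h) :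
    Good q r (g * h) := by
  intro f
  rw [mul_assoc, hg, hh, mul_assoc]

theorem Good.C (q r : ℕ) (a : ℤ) : Good q r (C a) := by
  intro f
  ext j
  simp only [proj_coeff, coeff_C_mul]
  split_ifs <;> simp

theorem Good.one (q r : ℕ) : Good q r 1 := by
  have := Good.C q r 1
  simpa using this

theorem Good.natCast (q r n : ℕ) : Good q r (n : ℤ[X]) := by
  have := Good.C q r n
  simpa using this

theorem Good.X_pow {q : ℕ} (r : ℕ) {m : ℕ} (h : q ∣ m) : Good q r (X ^ m) := by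
  intro f
  ext j
  rw [proj_coeff, coeff_X_pow_mul', coeff_X_pow_mul', proj_coeff]
  by_cases h1 : m ≤ j
  · have : (j - m) % q = j % q := by
      obtain ⟨c, rfl⟩ := h
      obtain ⟨d, rfl⟩ := Nat.exists_eq_add_of_le h1
      simp
    simp only [h1, if_true, this]
  · simp [h1]

theorem Good.pow {q r : ℕ} {g : ℤ[X]} (hg : Good q r g) (n : ℕ) : Good q r (g ^ n) := by
  induction n with
  | zero => simpa using Good.one q r
  | succ n ih => rw [pow_succ]; exact ih.mul hg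

theorem proj_monomial (q r n : ℕ) (a : ℤ) :
    proj q r (Polynomial.C a * X ^ n) = if n % q = r then Polynomial.C a * X ^ n else 0 := by
  ext j
  rw [proj_coeff, coeff_C_mul, coeff_X_pow]
  by_cases h : j = n
  · subst h
    by_cases h2 : j % q = r
    · simp [h2]
    · simp [h2]
  · by_cases h2 : n % q = r
    · simp [h2, h, coeff_X_pow]
    · simp [h2, h]

theorem Good.proj_eq_zero {q r : ℕ} (hr : r ≠ 0) {g : ℤ[X]} (hg : Good q r g) :
    proj q r g = 0 := by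
  have h := hg 1
  rw [mul_one] at h
  have h1 := proj_monomial q r 0 1
  simp only [Nat.zero_mod, pow_zero, mul_one, map_one] at h1
  rw [if_neg (Ne.symm hr)] at h1
  rw [h, h1, mul_zero]

/-- `proj` of `(A + B x^{q'})^p` on the class of `q'` modulo `q' p`. -/
theorem proj_Y_pow {p q' : ℕ} (hp : 2 ≤ p) (hq' : 1 ≤ q') (A B : ℤ) :
    proj (q' * p) q' ((Polynomial.C A + Polynomial.C B * X ^ q') ^ p)
      = (p : ℤ[X]) * (Polynomial.C (A ^ (p - 1) * B) * X ^ q') := by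
  rw [add_comm, add_pow, proj_sum]
  rw [Finset.sum_eq_single 1]
  · have e : (Polynomial.C B * X ^ q' : ℤ[X]) ^ 1 * Polynomial.C A ^ (p - 1) * ((p.choose 1 : ℕ) : ℤ[X])
        = Polynomial.C ((p : ℤ) * (A ^ (p - 1) * B)) * X ^ q' := by
      simp
      ring
    rw [e, proj_monomial]
    have : q' % (q' * p) = q' := Nat.mod_eq_of_lt (by nlinarith)
    rw [if_pos this]
    simp
    ring
  · intro m hm hm1
    have hm' : m ≤ p := by
      have := Finset.mem_range.mp hm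
      omega
    have e : (Polynomial.C B * X ^ q' : ℤ[X]) ^ m * Polynomial.C A ^ (p - m) * ((p.choose m : ℕ) : ℤ[X])
        = Polynomial.C (B ^ m * A ^ (p - m) * (p.choose m : ℤ)) * X ^ (q' * m) := by
      simp [mul_pow, ← pow_mul]
      ring
    rw [e, proj_monomial, if_neg]
    rw [Nat.mul_mod_mul_left]
    intro h
    have h2 : m % p = 1 := by
      have : q' * (m % p) = q' * 1 := by simpa using h
      exact Nat.eq_of_mul_eq_mul_left (by omega) this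
    rcases Nat.lt_or_ge m p with h3 | h3
    · rw [Nat.mod_eq_of_lt h3] at h2
      exact hm1 h2
    · have : m = p := le_antisymm hm' h3
      subst this
      simp at h2
  · intro h
    exfalso
    apply h
    simp
    omega



theorem frob_pow {p : ℕ} (hp : p.Prime) (a b : ℤ) (j : ℕ) :
    ∃ r : ℤ[X], (C a + C b * X : ℤ[X]) ^ (p ^ j)
      = C (a ^ p ^ j) + C (b ^ p ^ j) * X ^ (p ^ j) + (p : ℤ[X]) * r := by
  induction j with
  | zero => exact ⟨0, by simp⟩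
  | succ j ih =>
    obtain ⟨r, hr⟩ := ih
    obtain ⟨r1, hr1⟩ := exists_add_pow_prime_eq hp
      (C (a ^ p ^ j) + C (b ^ p ^ j) * X ^ (p ^ j) : ℤ[X]) ((p : ℤ[X]) * r)
    obtain ⟨r2, hr2⟩ := exists_add_pow_prime_eq hp
      (C (a ^ p ^ j) : ℤ[X]) (C (b ^ p ^ j) * X ^ (p ^ j))
    have hpow : ((p : ℤ[X]) * r) ^ p = (p : ℤ[X]) * ((p : ℤ[X]) ^ (p - 1) * r ^ p) := by
      rw [mul_pow, ← mul_assoc, mul_pow_sub_one hp.ne_zero]
    refine ⟨C (a ^ p ^ j) * (C (b ^ p ^ j) * X ^ (p ^ j)) * r2 + (p : ℤ[X]) ^ (p - 1) * r ^ p +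
      (C (a ^ p ^ j) + C (b ^ p ^ j) * X ^ (p ^ j)) * ((p : ℤ[X]) * r) * r1, ?_⟩
    rw [pow_succ, pow_mul, hr, hr1, hr2, hpow]
    have e1 : (C (a ^ p ^ j) : ℤ[X]) ^ p = C (a ^ (p ^ j * p)) := by
      rw [← C_pow, ← pow_mul]
    have e2 : (C (b ^ p ^ j) * X ^ p ^ j : ℤ[X]) ^ p = C (b ^ (p ^ j * p)) * X ^ (p ^ j * p) := by
      rw [mul_pow, ← C_pow, ← pow_mul, ← pow_mul]
    rw [e1, e2]
    ring

theorem x_unit (σ : ℕ) (hσ : 1 ≤ σ) (m : ℕ) :
    ∃ y : AZ σ, (Ideal.Quotient.mk _ (X : ℤ[X]) : AZ σ) ^ m * y = 1 := by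
  refine ⟨(Ideal.Quotient.mk _ (X : ℤ[X])) ^ ((σ - 1) * m), ?_⟩
  have h : (Ideal.Quotient.mk (Ideal.span {(X ^ σ - 1 : ℤ[X])}) (X : ℤ[X])) ^ σ = 1 := by
    rw [← map_pow, ← map_one (Ideal.Quotient.mk _), Ideal.Quotient.eq, Ideal.mem_span_singleton]
  rw [← pow_add]
  have : m + (σ - 1) * m = σ * m := by
    obtain ⟨s, rfl⟩ := Nat.exists_eq_add_of_le hσ
    simp
    ring
  rw [this, pow_mul, h, one_pow]

theorem claimC {p : ℕ} (hp : p.Prime) {σ k t : ℕ} (hσ : 1 ≤ σ) (hdvd : p ^ (k + 1) ∣ σ)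
    {a b : ℤ} (ha : IsCoprime (a : ℤ) p) (hb : IsCoprime (b : ℤ) p) (ht : IsCoprime (t : ℤ) p)
    (h : IsPer ((p : AZ σ) ^ 2) (uZ σ a b) (p ^ (k + 1) * t)) :
    ∃ L, (p : AZ σ) ∣ uZ σ a b ^ L := by
  obtain ⟨l, hl⟩ := h
  -- move to a multiple exponent
  set n : ℕ := l + 1 with hn
  set q : ℕ := p ^ (k + 1) with hq
  set q' : ℕ := p ^ k with hq'
  have hqq' : q = q' * p := by rw [hq, hq', pow_succ]
  have hq1 : 1 ≤ q := Nat.one_le_iff_ne_zero.mpr (pow_ne_zero _ hp.ne_zero)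
  have hq'1 : 1 ≤ q' := Nat.one_le_iff_ne_zero.mpr (pow_ne_zero _ hp.ne_zero)
  have hl2 := IsPer.lift hl (q * n) (by nlinarith)
  have e0 : q * t + q * n = q * (t + n) := by ring
  rw [e0] at hl2
  set U : ℤ[X] := C a + C b * X with hU
  set A : ℤ := a ^ q' with hA
  set B : ℤ := b ^ q' with hB
  set Y : ℤ[X] := C A + C B * X ^ q' with hY
  set V : ℤ[X] := C (A ^ p) + C (B ^ p) * X ^ q with hV
  -- U^q' = Y mod p
  obtain ⟨r0, hr0⟩ := frob_pow hp a b k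
  have h1 : (p : ℤ[X]) ∣ U ^ q' - Y := ⟨r0, by rw [hU, hq', hr0, hY, hA, hB]; ring⟩
  have h2 : (p : ℤ[X]) ^ (1 + 1) ∣ (U ^ q') ^ p ^ 1 - Y ^ p ^ 1 := dvd_sub_pow_of_dvd_sub h1 1
  obtain ⟨Z, hZ⟩ := h2
  have hUq : U ^ q = Y ^ p + (p : ℤ[X]) ^ 2 * Z := by
    have : U ^ q = (U ^ q') ^ p ^ 1 := by rw [pow_one, ← pow_mul, hqq']
    rw [this]
    have h3 : (U ^ q') ^ p ^ 1 = (p : ℤ[X]) ^ (1 + 1) * Z + Y ^ p ^ 1 := by rw [← hZ]; ring
    rw [h3, pow_one]; ring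
  obtain ⟨W0, hW0⟩ := exists_add_pow_prime_eq hp (C A : ℤ[X]) (C B * X ^ q')
  set W : ℤ[X] := C A * (C B * X ^ q') * W0 with hW
  have hYp : Y ^ p = V + (p : ℤ[X]) * W := by
    rw [hY, hW0, hV, hW, mul_pow, ← C_pow, ← C_pow, ← pow_mul, ← hqq']
    ring
  -- projection facts
  have hVgood : Good q q' V := by
    rw [hV]
    exact (Good.C _ _ _).add ((Good.C _ _ _).mul (Good.X_pow _ (dvd_refl _)))
  have hq'ne : q' ≠ 0 := by omega
  have hpZ : (p : ℤ[X]) ≠ 0 := by exact_mod_cast hp.ne_zero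
  have hprojW : proj q q' W = C (A ^ (p - 1) * B) * X ^ q' := by
    have h4 := proj_Y_pow (q' := q') hp.two_le hq'1 A B
    rw [← hqq', ← hY, hYp, proj_add, hVgood.proj_eq_zero hq'ne, zero_add, Good.natCast] at h4
    exact mul_left_cancel₀ hpZ h4
  -- binomial expansion
  have hexp : ∀ m : ℕ, ∃ K : ℤ[X], (U ^ q) ^ (m + 1)
      = V ^ (m + 1) + (p : ℤ[X]) * (((m + 1 : ℕ) : ℤ[X]) * V ^ m * W) + (p : ℤ[X]) ^ 2 * K := by
    intro m
    obtain ⟨z, hz⟩ := Polynomial.powAddExpansion V ((p : ℤ[X]) * (W + (p : ℤ[X]) * Z)) (m + 1)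
    refine ⟨((m + 1 : ℕ) : ℤ[X]) * V ^ m * Z + z * (W + (p : ℤ[X]) * Z) ^ 2, ?_⟩
    have : U ^ q = V + (p : ℤ[X]) * (W + (p : ℤ[X]) * Z) := by rw [hUq, hYp]; ring
    rw [this, hz]
    simp only [Nat.add_sub_cancel]
    ring
  obtain ⟨K1, hK1⟩ := hexp (t + l)
  obtain ⟨K2, hK2⟩ := hexp l
  -- the relation in ℤ[X]
  have e1 : uZ σ a b ^ (q * (t + n)) - uZ σ a b ^ (q * n)
      = Ideal.Quotient.mk _ (U ^ (q * (t + n)) - U ^ (q * n)) := by
    simp [uZ, hU]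
  have e2 : ((p : AZ σ) ^ 2) = ((p ^ 2 : ℕ) : AZ σ) := by push_cast; rfl
  rw [e1, e2, AZ_dvd_iff] at hl2
  obtain ⟨Q, R, hQR⟩ := hl2
  have e3 : t + n = (t + l) + 1 := by rw [hn]; ring
  rw [pow_mul, pow_mul, e3, hK1, hn, hK2] at hQR
  -- apply the projection
  have h5 := congrArg (proj q q') hQR
  have hσgood : Good q q' (X ^ σ - 1 : ℤ[X]) := (Good.X_pow _ hdvd).sub (Good.one _ _)
  have hpgood : Good q q' (p : ℤ[X]) := Good.natCast _ _ _
  have hp2good : Good q q' ((p : ℤ[X]) ^ 2) := hpgood.pow 2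
  rw [proj_sub, proj_add, proj_add, proj_add, proj_add, proj_add, hσgood,
    (hVgood.pow _).proj_eq_zero hq'ne, (hVgood.pow _).proj_eq_zero hq'ne,
    hpgood, hpgood, ((Good.natCast q q' _).mul (hVgood.pow _)),
    ((Good.natCast q q' _).mul (hVgood.pow _)), hprojW, hp2good, hp2good,
    (Good.natCast q q' _)] at h5
  have h6 : (X ^ σ - 1) * proj q q' Q = (p : ℤ[X]) * (
      (((t + l + 1 : ℕ) : ℤ[X]) * V ^ (t + l) - ((l + 1 : ℕ) : ℤ[X]) * V ^ l) *
        (C (A ^ (p - 1) * B) * X ^ q') + (p : ℤ[X]) * (proj q q' K1 - proj q q' K2 - proj q q' R)) := by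
    have h7 : ((p ^ 2 : ℕ) : ℤ[X]) = (p : ℤ[X]) ^ 2 := by push_cast; rfl
    rw [h7] at h5
    linear_combination -h5
  obtain ⟨Q', hQ'⟩ := dvd_of_dvd_X_pow_sub_one_mul hp hσ h6
  rw [hQ'] at h6
  have h8 : (X ^ σ - 1) * Q' =
      (((t + l + 1 : ℕ) : ℤ[X]) * V ^ (t + l) - ((l + 1 : ℕ) : ℤ[X]) * V ^ l) *
        (C (A ^ (p - 1) * B) * X ^ q') + (p : ℤ[X]) * (proj q q' K1 - proj q q' K2 - proj q q' R) := by
    apply mul_left_cancel₀ hpZ
    rw [← h6]; ring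
  -- pass to AZ
  set D : ℤ[X] := (((t + l + 1 : ℕ) : ℤ[X]) * V ^ (t + l) - ((l + 1 : ℕ) : ℤ[X]) * V ^ l) with hD
  have h9 : (p : AZ σ) ∣ Ideal.Quotient.mk _ (D * (C (A ^ (p - 1) * B) * X ^ q')) := by
    rw [AZ_dvd_iff]
    exact ⟨Q', -(proj q q' K1 - proj q q' K2 - proj q q' R), by linear_combination -h8⟩
  obtain ⟨y, hy⟩ := x_unit σ hσ q'
  have hcop : IsCoprime (A ^ (p - 1) * B) (p : ℤ) := by
    rw [hA, hB]
    exact IsCoprime.mul_left (ha.pow_left.pow_left) hb.pow_left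
  obtain ⟨c1, c2, hc⟩ := hcop
  have h10 : (p : AZ σ) ∣ Ideal.Quotient.mk _ D := by
    have h11 : (Ideal.Quotient.mk (Ideal.span {(X ^ σ - 1 : ℤ[X])}) D)
        = (Ideal.Quotient.mk _ (D * (C (A ^ (p - 1) * B) * X ^ q'))) * y * (c1 : AZ σ)
          + (p : AZ σ) * ((c2 : AZ σ) * Ideal.Quotient.mk _ D) := by
      have h12 : ((c1 * (A ^ (p - 1) * B) + c2 * (p : ℤ) : ℤ) : AZ σ) = 1 := by
        rw [hc]; simp
      have h13 : (Ideal.Quotient.mk (Ideal.span {(X ^ σ - 1 : ℤ[X])}))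
          (C (A ^ (p - 1) * B)) = ((A ^ (p - 1) * B : ℤ) : AZ σ) := by simp
      push_cast at h12 h13
      simp only [map_mul, map_pow] at h13 ⊢
      rw [h13]
      linear_combination (-(Ideal.Quotient.mk (Ideal.span {(X ^ σ - 1 : ℤ[X])}) D)) * h12
        - (Ideal.Quotient.mk (Ideal.span {(X ^ σ - 1 : ℤ[X])}) D) * (c1 : AZ σ) * ((A : AZ σ) ^ (p - 1) * (B : AZ σ)) * hy
    rw [h11]
    exact dvd_add (Dvd.dvd.mul_right (Dvd.dvd.mul_right h9 _) _) (Dvd.intro _ rfl)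
  -- V ≡ u^q mod p
  have h14 : (p : AZ σ) ∣ uZ σ a b ^ q - Ideal.Quotient.mk _ V := by
    have : uZ σ a b ^ q - Ideal.Quotient.mk _ V = Ideal.Quotient.mk _ (U ^ q - V) := by
      simp [uZ, hU]
    rw [this, AZ_dvd_iff]
    exact ⟨0, W + (p : ℤ[X]) * Z, by rw [hUq, hYp]; ring⟩
  have h15 : ∀ m : ℕ, (p : AZ σ) ∣ (uZ σ a b ^ q) ^ m - (Ideal.Quotient.mk _ V) ^ m := by
    intro m
    exact h14.trans (sub_dvd_pow_sub_pow _ _ m)
  set v : AZ σ := Ideal.Quotient.mk _ V with hv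
  have h16 : (p : AZ σ) ∣ v ^ (t + n) - v ^ n := by
    have h17 : (p : AZ σ) ∣ uZ σ a b ^ (q * (t + n)) - uZ σ a b ^ (q * n) := by
      rw [e1, AZ_dvd_iff]
      refine ⟨Q, (p : ℤ[X]) * R, ?_⟩
      rw [pow_mul, pow_mul, e3, hK1, hn, hK2, hQR]
      push_cast; ring
    rw [pow_mul, pow_mul] at h17
    have h18 := dvd_sub (dvd_add h17 (h15 n)) (h15 (t + n))
    have : (uZ σ a b ^ q) ^ (t + n) - (uZ σ a b ^ q) ^ n + ((uZ σ a b ^ q) ^ n - v ^ n)
        - ((uZ σ a b ^ q) ^ (t + n) - v ^ (t + n)) = v ^ (t + n) - v ^ n := by ring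
    rwa [this] at h18
  have h19 : (p : AZ σ) ∣ (t : AZ σ) * v ^ n := by
    have h20 : Ideal.Quotient.mk _ D * v = ((t + l + 1 : ℕ) : AZ σ) * v ^ (t + n) - ((l + 1 : ℕ) : AZ σ) * v ^ n := by
      rw [hD, hn]
      simp only [map_sub, map_mul, map_pow, ← hv, map_natCast]
      ring
    have h21 : (p : AZ σ) ∣ Ideal.Quotient.mk _ D * v := Dvd.dvd.mul_right h10 _
    have h22 : (p : AZ σ) ∣ ((t + l + 1 : ℕ) : AZ σ) * (v ^ (t + n) - v ^ n) := Dvd.dvd.mul_left h16 _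
    have h23 := dvd_sub h21 h22
    rw [h20] at h23
    have : ((t + l + 1 : ℕ) : AZ σ) * v ^ (t + n) - ((l + 1 : ℕ) : AZ σ) * v ^ n
        - ((t + l + 1 : ℕ) : AZ σ) * (v ^ (t + n) - v ^ n) = (t : AZ σ) * v ^ n := by
      push_cast; ring
    rwa [this] at h23
  obtain ⟨d1, d2, hd⟩ := ht
  have h24 : (p : AZ σ) ∣ v ^ n := by
    have h25 : ((d1 * (t : ℤ) + d2 * (p : ℤ) : ℤ) : AZ σ) = 1 := by rw [hd]; simp
    push_cast at h25
    have h26 : v ^ n = (d1 : AZ σ) * ((t : AZ σ) * v ^ n) + (p : AZ σ) * ((d2 : AZ σ) * v ^ n) := by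
      linear_combination (-v ^ n) * h25
    rw [h26]
    exact dvd_add (Dvd.dvd.mul_left h19 _) (Dvd.intro _ rfl)
  refine ⟨q * n, ?_⟩
  have h27 := dvd_add (h15 n) h24
  rw [sub_add_cancel] at h27
  rwa [pow_mul]


theorem x_pow_sigma (σ : ℕ) :
    (Ideal.Quotient.mk (Ideal.span {(X ^ σ - 1 : ℤ[X])}) (X : ℤ[X])) ^ σ = 1 := by
  rw [← map_pow, ← map_one (Ideal.Quotient.mk _), Ideal.Quotient.eq, Ideal.mem_span_singleton]


theorem intPow_p {p : ℕ} (hp : p.Prime) (a : ℤ) (j : ℕ) : ∃ c : ℤ, a ^ p ^ j = a + p * c := by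
  have : Fact p.Prime := ⟨hp⟩
  have h : ((a ^ p ^ j - a : ℤ) : ZMod p) = 0 := by
    push_cast
    rw [ZMod.pow_card_pow]
    simp
  rw [ZMod.intCast_zmod_eq_zero_iff_dvd] at h
  obtain ⟨c, hc⟩ := h
  exact ⟨c, by rw [← hc]; ring⟩

/-- Frobenius gives a period modulo `p`. -/
theorem isPer_frob {p : ℕ} (hp : p.Prime) {σ k e c : ℕ} (a b : ℤ)
    (h : p ^ (k + e) = p ^ k + σ * c) :
    IsPer (p : AZ σ) (uZ σ a b) (σ * c) := by
  refine ⟨p ^ k, ?_⟩
  rw [add_comm (σ * c), ← h]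
  have e1 : uZ σ a b ^ (p ^ (k + e)) - uZ σ a b ^ (p ^ k)
      = Ideal.Quotient.mk _ ((C a + C b * X) ^ (p ^ (k + e)) - (C a + C b * X) ^ (p ^ k)) := by
    simp [uZ]
  rw [e1, AZ_dvd_iff]
  obtain ⟨r1, hr1⟩ := frob_pow hp a b (k + e)
  obtain ⟨r2, hr2⟩ := frob_pow hp a b k
  obtain ⟨a1, ha1⟩ := intPow_p hp a (k + e)
  obtain ⟨a2, ha2⟩ := intPow_p hp a k
  obtain ⟨b1, hb1⟩ := intPow_p hp b (k + e)
  obtain ⟨b2, hb2⟩ := intPow_p hp b k
  rw [hr1, hr2, ha1, ha2, hb1, hb2]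
  obtain ⟨s, hs⟩ : (X ^ σ - 1 : ℤ[X]) ∣ X ^ (σ * c) - 1 := by
    have := sub_dvd_pow_sub_pow (X ^ σ : ℤ[X]) 1 c
    rwa [one_pow, ← pow_mul] at this
  have hX : (X : ℤ[X]) ^ (p ^ (k + e)) = X ^ (p ^ k) * ((X ^ σ - 1) * s) + X ^ (p ^ k) := by
    rw [h, pow_add, ← hs]; ring
  refine ⟨C (b + p * b1) * (X ^ (p ^ k) * s),
    C (a1 - a2) + C (b1 - b2) * X ^ (p ^ k) + r1 - r2, ?_⟩
  rw [hX]
  simp only [map_add, map_mul, map_sub]
  simp
  ring

/-- a prime power congruent to one -/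
theorem exists_pow_eq {p : ℕ} (hp : p.Prime) {s : ℕ} (hs : 1 ≤ s) (hc : Nat.Coprime p s) (k : ℕ) :
    ∃ e c : ℕ, p ^ (k + e) = p ^ k + (p ^ k * s) * c ∧ p ^ k * (p ^ e - 1) = (p ^ k * s) * c ∧ 1 ≤ e := by
  have h1 : p ^ Nat.totient s ≡ 1 [MOD s] := Nat.ModEq.pow_totient hc
  have h2 : s ∣ p ^ Nat.totient s - 1 :=
    (Nat.modEq_iff_dvd' (Nat.one_le_pow _ _ hp.pos)).mp h1.symm
  obtain ⟨c, hcc⟩ := h2
  have h3 : p ^ Nat.totient s = 1 + s * c := by
    have := Nat.one_le_pow (Nat.totient s) p hp.pos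
    omega
  refine ⟨Nat.totient s, c, ?_, ?_, Nat.totient_pos.mpr hs⟩
  · rw [pow_add, h3]; ring
  · rw [hcc]; ring

/-- periods of the degenerate rules -/
theorem isPer_degenerate {p : ℕ} (hp : p.Prime) {σ M : ℕ} (hM : σ ∣ M)
    (hM2 : (p - 1) ∣ M) {a b : ℤ} (hab : (p : ℤ) ∣ a ∨ (p : ℤ) ∣ b) :
    IsPer (p : AZ σ) (uZ σ a b) M := by
  have : Fact p.Prime := ⟨hp⟩
  refine ⟨1, ?_⟩
  have hpow : ∀ a : ℤ, ∃ c : ℤ, a ^ (M + 1) = a + p * c := by
    intro a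
    have h : ((a ^ (M + 1) - a : ℤ) : ZMod p) = 0 := by
      push_cast
      obtain ⟨m, rfl⟩ := hM2
      by_cases ha : (a : ZMod p) = 0
      · rw [ha]; simp
      · rw [pow_succ, pow_mul, ZMod.pow_card_sub_one_eq_one ha]; simp
    rw [ZMod.intCast_zmod_eq_zero_iff_dvd] at h
    obtain ⟨c, hc⟩ := h
    exact ⟨c, by rw [← hc]; ring⟩
  set x : AZ σ := Ideal.Quotient.mk _ (X : ℤ[X]) with hx
  have hxM : x ^ M = 1 := by
    obtain ⟨m, rfl⟩ := hM
    rw [pow_mul, hx, x_pow_sigma, one_pow]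
  have hu : uZ σ a b = (a : AZ σ) + (b : AZ σ) * x := by
    simp [uZ, hx]
  have hcast : ((p : ℤ) : AZ σ) = (p : AZ σ) := by simp
  rw [hu, pow_one]
  rcases hab with ⟨c, rfl⟩ | ⟨c, rfl⟩
  · have h1 : (p : AZ σ) ∣ (((p * c : ℤ) : AZ σ) + (b : AZ σ) * x) - (b : AZ σ) * x := by
      refine ⟨(c : AZ σ), ?_⟩
      push_cast; ring
    have h2 := h1.trans (sub_dvd_pow_sub_pow _ _ (M + 1))
    have h3 : (p : AZ σ) ∣ ((b : AZ σ) * x) ^ (M + 1) - (b : AZ σ) * x := by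
      obtain ⟨d, hd⟩ := hpow b
      refine ⟨(d : AZ σ) * x, ?_⟩
      rw [mul_pow, pow_succ x, hxM]
      have : (b : AZ σ) ^ (M + 1) = (b : AZ σ) + (p : AZ σ) * d := by
        have := congrArg (fun z : ℤ => (z : AZ σ)) hd
        push_cast at this
        exact this
      rw [this]; ring
    have h4 := dvd_sub (dvd_add h2 h3) h1
    have e : ((((p * c : ℤ) : AZ σ) + (b : AZ σ) * x) ^ (M + 1) - ((b : AZ σ) * x) ^ (M + 1)
        + (((b : AZ σ) * x) ^ (M + 1) - (b : AZ σ) * x))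
        - ((((p * c : ℤ) : AZ σ) + (b : AZ σ) * x) - (b : AZ σ) * x)
        = (((p * c : ℤ) : AZ σ) + (b : AZ σ) * x) ^ (M + 1) - (((p * c : ℤ) : AZ σ) + (b : AZ σ) * x) := by
      ring
    rwa [e] at h4
  · have h1 : (p : AZ σ) ∣ ((a : AZ σ) + ((p * c : ℤ) : AZ σ) * x) - (a : AZ σ) := by
      refine ⟨(c : AZ σ) * x, ?_⟩
      push_cast; ring
    have h2 := h1.trans (sub_dvd_pow_sub_pow _ _ (M + 1))
    have h3 : (p : AZ σ) ∣ (a : AZ σ) ^ (M + 1) - (a : AZ σ) := by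
      obtain ⟨d, hd⟩ := hpow a
      refine ⟨(d : AZ σ), ?_⟩
      have : (a : AZ σ) ^ (M + 1) = (a : AZ σ) + (p : AZ σ) * d := by
        have := congrArg (fun z : ℤ => (z : AZ σ)) hd
        push_cast at this
        exact this
      rw [this]; ring
    have h4 := dvd_sub (dvd_add h2 h3) h1
    have e : (((a : AZ σ) + ((p * c : ℤ) : AZ σ) * x) ^ (M + 1) - (a : AZ σ) ^ (M + 1)
        + ((a : AZ σ) ^ (M + 1) - (a : AZ σ)))
        - (((a : AZ σ) + ((p * c : ℤ) : AZ σ) * x) - (a : AZ σ))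
        = ((a : AZ σ) + ((p * c : ℤ) : AZ σ) * x) ^ (M + 1) - ((a : AZ σ) + ((p * c : ℤ) : AZ σ) * x) := by
      ring
    rwa [e] at h4

/-- combinatorial lemma in the group algebra of a cyclic group -/
theorem comb {p : ℕ} (hp : p.Prime) (hp2 : p ≠ 2) {σ k e : ℕ} (hσ : 1 ≤ σ) (hk : Even k)
    (he : Odd e) (h : (X ^ σ - 1 : (ZMod p)[X]) ∣ X ^ (k + e) + X ^ k - 1 - X ^ e) : σ ∣ k := by
  have : Fact p.Prime := ⟨hp⟩
  have h1 : (1 : ZMod p) ≠ 0 := one_ne_zero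
  have h2 : (2 : ZMod p) ≠ 0 := by
    intro h
    have : ((2 : ℕ) : ZMod p) = 0 := by exact_mod_cast h
    rw [ZMod.natCast_eq_zero_iff] at this
    exact hp2 ((Nat.prime_dvd_prime_iff_eq hp Nat.prime_two).mp this)
  have hred : ∀ m : ℕ, (X ^ σ - 1 : (ZMod p)[X]) ∣ X ^ m - X ^ (m % σ) := by
    intro m
    have e1 : (X ^ m - X ^ (m % σ) : (ZMod p)[X]) = X ^ (m % σ) * ((X ^ σ) ^ (m / σ) - 1 ^ (m / σ)) := by
      conv_lhs => rw [← Nat.mod_add_div m σ]
      rw [Nat.add_mul_mod_self_left, Nat.mod_mod, pow_add, pow_mul, one_pow]; ring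
    rw [e1]
    exact Dvd.dvd.mul_left (sub_dvd_pow_sub_pow _ _ _) _
  set r1 := (k + e) % σ with hr1
  set r2 := k % σ with hr2
  set r3 := e % σ with hr3
  have h3 : (X ^ σ - 1 : (ZMod p)[X]) ∣ X ^ r1 + X ^ r2 - 1 - X ^ r3 := by
    have := dvd_sub h (dvd_sub (dvd_add (hred (k + e)) (hred k)) (hred e))
    convert this using 1
    ring
  have hmonic : (X ^ σ - 1 : (ZMod p)[X]).degree = σ := by
    have := degree_X_pow_sub_C (R := ZMod p) (n := σ) (by omega) 1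
    simpa using this
  have hlt1 : r1 < σ := Nat.mod_lt _ (by omega)
  have hlt2 : r2 < σ := Nat.mod_lt _ (by omega)
  have hlt3 : r3 < σ := Nat.mod_lt _ (by omega)
  have h4 : (X ^ r1 + X ^ r2 - 1 - X ^ r3 : (ZMod p)[X]) = 0 := by
    apply Polynomial.eq_zero_of_dvd_of_degree_lt h3
    rw [hmonic]
    have d0 : (1 : (ZMod p)[X]).degree < (σ : WithBot ℕ) := by
      rw [degree_one]
      exact_mod_cast hσ
    have dX : ∀ r : ℕ, r < σ → (X ^ r : (ZMod p)[X]).degree < (σ : WithBot ℕ) := by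
      intro r hr
      rw [degree_X_pow]
      exact_mod_cast hr
    refine lt_of_le_of_lt (degree_sub_le _ _) (max_lt ?_ (dX r3 hlt3))
    refine lt_of_le_of_lt (degree_sub_le _ _) (max_lt ?_ d0)
    exact lt_of_le_of_lt (degree_add_le _ _) (max_lt (dX r1 hlt1) (dX r2 hlt2))
  have hcoef : ∀ j : ℕ, (if j = r1 then (1 : ZMod p) else 0) + (if j = r2 then 1 else 0)
      - (if j = 0 then 1 else 0) - (if j = r3 then 1 else 0) = 0 := by
    intro j
    have := congrArg (fun f => Polynomial.coeff f j) h4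
    simpa [coeff_X_pow, coeff_one] using this
  by_contra hcon
  have hr2ne : r2 ≠ 0 := fun h => hcon (Nat.dvd_of_mod_eq_zero h)
  have c0 := hcoef 0
  rw [if_neg (Ne.symm hr2ne), if_pos rfl] at c0
  have hr1r3 : r1 = 0 ∧ r3 ≠ 0 := by
    by_cases g1 : r1 = 0
    · by_cases g3 : r3 = 0
      · rw [g1, g3] at c0
        simp at c0
      · exact ⟨g1, g3⟩
    · by_cases g3 : r3 = 0
      · rw [if_neg (Ne.symm g1), g3] at c0
        simp only [if_true] at c0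
        exact absurd (by linear_combination -c0 : (2 : ZMod p) = 0) h2
      · rw [if_neg (Ne.symm g1), if_neg (Ne.symm g3)] at c0
        exact absurd (by linear_combination -c0 : (1 : ZMod p) = 0) h1
  have c2 := hcoef r2
  rw [hr1r3.1, if_neg hr2ne, if_pos rfl] at c2
  have hr23 : r2 = r3 := by
    by_contra g
    rw [if_neg g] at c2
    exact absurd (by linear_combination c2 : (1 : ZMod p) = 0) h1
  -- arithmetic conclusion
  have hA : σ ∣ k + e := Nat.dvd_of_mod_eq_zero (hr1 ▸ hr1r3.1)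
  have hB : (σ : ℤ) ∣ (k : ℤ) - e := by
    have : k ≡ e [MOD σ] := hr23
    exact (Nat.modEq_iff_dvd.mp this.symm)
  have hσodd : Odd σ := by
    rcases Nat.even_or_odd σ with h5 | h5
    · exfalso
      have h6 : (2 : ℤ) ∣ (k : ℤ) - e := by
        obtain ⟨s, hs⟩ := h5
        refine Dvd.dvd.trans ?_ hB
        exact ⟨s, by rw [hs]; push_cast; ring⟩
      obtain ⟨k', hk'⟩ := hk
      obtain ⟨e', he'⟩ := he
      omega
    · exact h5
  have hC : (σ : ℤ) ∣ 2 * e := by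
    have h7 : (σ : ℤ) ∣ (k : ℤ) + e := by exact_mod_cast hA
    have := dvd_sub h7 hB
    have e1 : (k : ℤ) + e - (k - e) = 2 * e := by ring
    rwa [e1] at this
  have hC' : σ ∣ 2 * e := by exact_mod_cast hC
  have hcop : Nat.Coprime σ 2 := Nat.coprime_two_right.mpr hσodd
  have hD : σ ∣ e := hcop.dvd_of_dvd_mul_left hC'
  exact hr1r3.2 (Nat.mod_eq_zero_of_dvd hD)


/-- the special rule `w (1 + x)` with `2 w` a primitive root: all its periods modulo `p` are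
multiples of `σ` and of `p - 1`. -/
theorem exists_special {p : ℕ} (hp : p.Prime) (hp2 : p ≠ 2) {σ : ℕ} (hσ : 1 ≤ σ) :
    ∃ w : ℤ, IsCoprime w (p : ℤ) ∧
      ∀ k : ℕ, IsPer (p : AZ σ) (uZ σ w w) k → σ ∣ k ∧ (p - 1) ∣ k := by
  have : Fact p.Prime := ⟨hp⟩
  have h2 : (2 : ZMod p) ≠ 0 := by
    intro h
    have : ((2 : ℕ) : ZMod p) = 0 := by exact_mod_cast h
    rw [ZMod.natCast_eq_zero_iff] at this
    exact hp2 ((Nat.prime_dvd_prime_iff_eq hp Nat.prime_two).mp this)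
  obtain ⟨g, hg⟩ := IsCyclic.exists_generator (α := (ZMod p)ˣ)
  have hord : orderOf g = p - 1 := by
    rw [orderOf_eq_card_of_forall_mem_zpowers hg, Nat.card_eq_fintype_card, ZMod.card_units]
  set w : ℤ := ((((g : ZMod p) * 2⁻¹ : ZMod p)).val : ℤ) with hw
  have hwcast : (w : ZMod p) = (g : ZMod p) * 2⁻¹ := by
    rw [hw]; simp
  have hw0 : (w : ZMod p) ≠ 0 := by
    rw [hwcast]
    exact mul_ne_zero (Units.ne_zero g) (inv_ne_zero h2)
  have hwp : ¬ (p : ℤ) ∣ w := by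
    rw [← ZMod.intCast_zmod_eq_zero_iff_dvd]; exact hw0
  have hcop : IsCoprime w (p : ℤ) :=
    ((Nat.prime_iff_prime_int.mp hp).coprime_iff_not_dvd.mpr hwp).symm
  refine ⟨w, hcop, ?_⟩
  intro k hk
  obtain ⟨l, hl⟩ := hk
  -- evaluation at 1
  have hdiv1 : (p - 1) ∣ k := by
    let φ : AZ σ →+* ZMod p := Ideal.Quotient.lift _ (eval₂RingHom (Int.castRingHom (ZMod p)) 1)
      (by
        intro a ha
        rw [Ideal.mem_span_singleton] at ha
        obtain ⟨c, rfl⟩ := ha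
        simp)
    have hφu : φ (uZ σ w w) = (g : ZMod p) := by
      have : φ (uZ σ w w) = (w : ZMod p) + (w : ZMod p) := by
        simp [φ, uZ]
      rw [this, hwcast]
      field_simp
      ring
    have h3 := map_dvd φ hl
    rw [map_sub, map_pow, map_pow, hφu, map_natCast, ZMod.natCast_self, zero_dvd_iff, sub_eq_zero,
      pow_add] at h3
    have h4 : (g : ZMod p) ^ k = 1 := by
      have h5 : (g : ZMod p) ^ l ≠ 0 := pow_ne_zero _ (Units.ne_zero g)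
      exact mul_right_cancel₀ h5 (by rw [h3, one_mul])
    have h6 : g ^ k = 1 := by
      ext; push_cast; exact h4
    rw [← hord]
    exact orderOf_dvd_of_pow_eq_one h6
  refine ⟨?_, hdiv1⟩
  have hkeven : Even k := by
    have : Even (p - 1) := by
      rcases hp.eq_two_or_odd' with h | h
      · exact absurd h hp2
      · obtain ⟨m, hm⟩ := h
        exact ⟨m, by omega⟩
    obtain ⟨m, hm⟩ := hdiv1
    rw [hm]
    exact this.mul_right _
  -- the involution x ↦ x⁻¹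
  set x : AZ σ := Ideal.Quotient.mk _ (X : ℤ[X]) with hx
  have hxσ : x ^ σ = 1 := x_pow_sigma σ
  let ι : AZ σ →+* AZ σ := Ideal.Quotient.lift _ (eval₂RingHom (Int.castRingHom (AZ σ)) (x ^ (σ - 1)))
      (by
        intro a ha
        rw [Ideal.mem_span_singleton] at ha
        obtain ⟨c, rfl⟩ := ha
        have : (x ^ (σ - 1)) ^ σ = 1 := by rw [← pow_mul, mul_comm, pow_mul, hxσ, one_pow]
        simp [this])
  have hu : uZ σ w w = (w : AZ σ) * (1 + x) := by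
    simp [uZ, hx]; ring
  have hιu : x * ι (uZ σ w w) = uZ σ w w := by
    have h5 : ι (uZ σ w w) = (w : AZ σ) + (w : AZ σ) * x ^ (σ - 1) := by
      simp [ι, uZ]
    have h6 : x * x ^ (σ - 1) = 1 := by
      rw [← pow_succ', Nat.sub_add_cancel hσ, hxσ]
    rw [h5, hu]
    linear_combination (w : AZ σ) * h6
  have h7 : (p : AZ σ) ∣ uZ σ w w ^ (k + l) - x ^ k * uZ σ w w ^ l := by
    have h8 := map_dvd ι hl
    rw [map_sub, map_pow, map_pow, map_natCast] at h8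
    have h9 := Dvd.dvd.mul_left h8 (x ^ (k + l))
    have e : x ^ (k + l) * (ι (uZ σ w w) ^ (k + l) - ι (uZ σ w w) ^ l)
        = (x * ι (uZ σ w w)) ^ (k + l) - x ^ k * (x * ι (uZ σ w w)) ^ l := by
      rw [mul_pow, mul_pow, pow_add x]; ring
    rw [e, hιu] at h9
    exact h9
  have h10 : (p : AZ σ) ∣ (x ^ k - 1) * uZ σ w w ^ l := by
    have h11 := dvd_sub hl h7
    have e : uZ σ w w ^ (k + l) - uZ σ w w ^ l - (uZ σ w w ^ (k + l) - x ^ k * uZ σ w w ^ l)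
        = (x ^ k - 1) * uZ σ w w ^ l := by ring
    rwa [e] at h11
  have hlp : l ≤ p ^ l := (Nat.lt_pow_self hp.one_lt).le
  have h12 : (p : AZ σ) ∣ (x ^ k - 1) * uZ σ w w ^ (p ^ l) := by
    obtain ⟨d, hd⟩ := Nat.exists_eq_add_of_le hlp
    rw [hd, pow_add, ← mul_assoc]
    exact Dvd.dvd.mul_right h10 _
  have h13 : (p : AZ σ) ∣ (w : AZ σ) ^ (p ^ l) * ((x ^ k - 1) * (1 + x ^ (p ^ l))) := by
    obtain ⟨r, hr⟩ := frob_pow hp 1 1 l
    have h14 : (1 + x) ^ (p ^ l) = 1 + x ^ (p ^ l) + (p : AZ σ) * Ideal.Quotient.mk _ r := by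
      have := congrArg (Ideal.Quotient.mk (Ideal.span {(X ^ σ - 1 : ℤ[X])})) hr
      simpa [hx] using this
    rw [hu, mul_pow, h14] at h12
    have h15 : (p : AZ σ) ∣ (x ^ k - 1) * ((w : AZ σ) ^ (p ^ l) * ((p : AZ σ) * Ideal.Quotient.mk _ r)) :=
      ⟨(x ^ k - 1) * ((w : AZ σ) ^ (p ^ l) * Ideal.Quotient.mk _ r), by ring⟩
    have h16 := dvd_sub h12 h15
    convert h16 using 1
    ring
  have h17 : (p : AZ σ) ∣ (x ^ k - 1) * (1 + x ^ (p ^ l)) := by
    obtain ⟨c1, c2, hc⟩ := (hcop.pow_left (m := p ^ l))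
    have h18 : ((c1 * w ^ (p ^ l) + c2 * (p : ℤ) : ℤ) : AZ σ) = 1 := by rw [hc]; simp
    push_cast at h18
    have e : (x ^ k - 1) * (1 + x ^ (p ^ l))
        = (c1 : AZ σ) * ((w : AZ σ) ^ (p ^ l) * ((x ^ k - 1) * (1 + x ^ (p ^ l))))
          + (p : AZ σ) * ((c2 : AZ σ) * ((x ^ k - 1) * (1 + x ^ (p ^ l)))) := by
      linear_combination (-((x ^ k - 1) * (1 + x ^ (p ^ l)))) * h18
    rw [e]
    exact dvd_add (Dvd.dvd.mul_left h13 _) (Dvd.intro _ rfl)
  -- to `(ZMod p)[X]`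
  have h19 : (X ^ σ - 1 : (ZMod p)[X]) ∣ X ^ (k + p ^ l) + X ^ k - 1 - X ^ (p ^ l) := by
    have e : (x ^ k - 1) * (1 + x ^ (p ^ l))
        = Ideal.Quotient.mk _ ((X ^ k - 1) * (1 + X ^ (p ^ l)) : ℤ[X]) := by
      simp [hx]
    rw [e, AZ_dvd_iff] at h17
    obtain ⟨q, r, hqr⟩ := h17
    have := congrArg (Polynomial.map (Int.castRingHom (ZMod p))) hqr
    simp only [Polynomial.map_mul, Polynomial.map_sub, Polynomial.map_add, Polynomial.map_pow,
      Polynomial.map_X, Polynomial.map_one, Polynomial.map_natCast, CharP.cast_eq_zero,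
      zero_mul, add_zero] at this
    refine ⟨q.map (Int.castRingHom (ZMod p)), ?_⟩
    rw [← this]; ring
  have hodd : Odd (p ^ l) := by
    rcases hp.eq_two_or_odd' with h | h
    · exact absurd h hp2
    · exact h.pow
  exact comb hp hp2 hσ hkeven hodd h19

/-- the integer form of the period for a prime power modulus -/
theorem mem_iff_isPer (σ n k : ℕ) (a b : ℤ) :
    (∃ l : ℕ, rule σ n (a : ZMod n) (b : ZMod n) ^ (k + l) = rule σ n (a : ZMod n) (b : ZMod n) ^ l)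
      ↔ IsPer (n : AZ σ) (uZ σ a b) k := by
  unfold IsPer
  constructor
  · rintro ⟨l, hl⟩; exact ⟨l, (rule_pow_eq_iff σ n a b _ _).mp hl⟩
  · rintro ⟨l, hl⟩; exact ⟨l, (rule_pow_eq_iff σ n a b _ _).mpr hl⟩

/-- some positive period modulo `p`, with explicit shape -/
theorem exists_isPer {p : ℕ} (hp : p.Prime) {σ : ℕ} (hσ : 1 ≤ σ) (a b : ℤ) :
    ∃ K e : ℕ, p ^ K ∣ σ ∧ ¬ p ^ (K + 1) ∣ σ ∧ 1 ≤ e ∧
      IsPer (p : AZ σ) (uZ σ a b) (p ^ K * (p ^ e - 1)) := by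
  obtain ⟨K, s, hs, hσs⟩ := Nat.exists_eq_pow_mul_and_not_dvd (by omega : σ ≠ 0) p hp.ne_one
  have hs1 : 1 ≤ s := by
    rcases Nat.eq_zero_or_pos s with h | h
    · subst h; simp at hs
    · exact h
  obtain ⟨e, c, h1, h2, h3⟩ := exists_pow_eq hp hs1 ((Nat.Prime.coprime_iff_not_dvd hp).mpr hs) K
  refine ⟨K, e, ⟨s, hσs⟩, ?_, h3, ?_⟩
  · rintro ⟨c', hc'⟩
    apply hs
    refine ⟨c', ?_⟩
    have : p ^ K * s = p ^ K * (p * c') := by rw [← hσs, hc']; ring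
    exact Nat.eq_of_mul_eq_mul_left (pow_pos hp.pos _) this
  · rw [h2, ← hσs]
    apply isPer_frob hp
    rw [h1, ← hσs]

theorem exists_isPer_pow {p : ℕ} (hp : p.Prime) {σ : ℕ} (hσ : 1 ≤ σ) (a b : ℤ) (j : ℕ)
    (hj : 1 ≤ j) : ∃ k, 1 ≤ k ∧ IsPer ((p : AZ σ) ^ j) (uZ σ a b) k := by
  induction j, hj using Nat.le_induction with
  | base =>
    obtain ⟨K, e, _, _, he, h⟩ := exists_isPer hp hσ a b
    refine ⟨_, ?_, by simpa using h⟩
    have h1 : 1 ≤ p ^ K := Nat.one_le_pow _ _ hp.pos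
    have h2 : 2 ≤ p ^ e := by
      calc 2 ≤ p := hp.two_le
        _ = p ^ 1 := (pow_one p).symm
        _ ≤ p ^ e := Nat.pow_le_pow_right hp.pos he
    have h3 : 1 ≤ p ^ e - 1 := by omega
    exact Nat.one_le_iff_ne_zero.mpr (mul_ne_zero (by omega) (by omega))
  | succ j hj ih =>
    obtain ⟨k, hk, h⟩ := ih
    exact ⟨p * k, Nat.one_le_iff_ne_zero.mpr (mul_ne_zero hp.ne_zero (by omega)), h.step hj⟩

theorem period_spec {p : ℕ} (hp : p.Prime) {σ : ℕ} (hσ : 1 ≤ σ) (a b : ℤ) (j : ℕ) (hj : 1 ≤ j) :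
    1 ≤ period σ (p ^ j) (a : ZMod (p ^ j)) (b : ZMod (p ^ j)) ∧
    ∀ k, IsPer ((p : AZ σ) ^ j) (uZ σ a b) k ↔
      period σ (p ^ j) (a : ZMod (p ^ j)) (b : ZMod (p ^ j)) ∣ k := by
  have hset : {k : ℕ | 1 ≤ k ∧ ∃ l : ℕ, rule σ (p ^ j) (a : ZMod (p ^ j)) (b : ZMod (p ^ j)) ^ (k + l)
      = rule σ (p ^ j) (a : ZMod (p ^ j)) (b : ZMod (p ^ j)) ^ l}
      = {k : ℕ | 1 ≤ k ∧ IsPer ((p : AZ σ) ^ j) (uZ σ a b) k} := by
    ext k
    simp only [Set.mem_ofPred_eq]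
    rw [mem_iff_isPer]
    push_cast
    rfl
  have hne : {k : ℕ | 1 ≤ k ∧ IsPer ((p : AZ σ) ^ j) (uZ σ a b) k}.Nonempty := by
    obtain ⟨k, hk, h⟩ := exists_isPer_pow hp hσ a b j hj
    exact ⟨k, hk, h⟩
  unfold period
  rw [hset]
  have hmem := Nat.sInf_mem hne
  refine ⟨hmem.1, fun k => ⟨fun h => ?_, fun h => ?_⟩⟩
  · have h1 := h.mod hmem.2
    by_contra hcon
    have h2 : 1 ≤ k % sInf {k : ℕ | 1 ≤ k ∧ IsPer ((p : AZ σ) ^ j) (uZ σ a b) k} := by
      rcases Nat.eq_zero_or_pos (k % sInf {k : ℕ | 1 ≤ k ∧ IsPer ((p : AZ σ) ^ j) (uZ σ a b) k}) with h3 | h3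
      · exact absurd (Nat.dvd_of_mod_eq_zero h3) hcon
      · exact h3
    have h4 := Nat.sInf_le (s := {k : ℕ | 1 ≤ k ∧ IsPer ((p : AZ σ) ^ j) (uZ σ a b) k}) ⟨h2, h1⟩
    have h5 := Nat.mod_lt k (show 0 < sInf {k : ℕ | 1 ≤ k ∧ IsPer ((p : AZ σ) ^ j) (uZ σ a b) k} from hmem.1)
    omega
  · obtain ⟨c, hc⟩ := h
    rw [hc, mul_comm]
    exact hmem.2.mul c

theorem maxPeriod_spec (σ n : ℕ) (hn : 1 ≤ n) :
    (∀ a b : ZMod n, period σ n a b ≤ maxPeriod σ n) ∧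
      ∃ a b : ZMod n, maxPeriod σ n = period σ n a b := by
  have : NeZero n := ⟨by omega⟩
  have hfin : {k : ℕ | ∃ a b : ZMod n, k = period σ n a b}.Finite := by
    have h1 : {k : ℕ | ∃ a b : ZMod n, k = period σ n a b}
        = Set.range (fun ab : ZMod n × ZMod n => period σ n ab.1 ab.2) := by
      ext k
      constructor
      · rintro ⟨a, b, rfl⟩; exact ⟨(a, b), rfl⟩
      · rintro ⟨⟨a, b⟩, rfl⟩; exact ⟨a, b, rfl⟩
    rw [h1]
    exact Set.finite_range _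
  have hne : {k : ℕ | ∃ a b : ZMod n, k = period σ n a b}.Nonempty := ⟨_, 0, 0, rfl⟩
  refine ⟨fun a b => le_csSup hfin.bddAbove ⟨a, b, rfl⟩, ?_⟩
  exact Nat.sSup_mem hne hfin.bddAbove

theorem intCast_surj (n : ℕ) (a : ZMod n) : ∃ z : ℤ, (z : ZMod n) = a := ZMod.intCast_surjective a

/-- upper bound: raising the exponent multiplies the maximum at most by `p`. -/
theorem maxPeriod_le {p : ℕ} (hp : p.Prime) {σ : ℕ} (hσ : 1 ≤ σ) (j : ℕ) (hj : 1 ≤ j) :
    maxPeriod σ (p ^ (j + 1)) ≤ p * maxPeriod σ (p ^ j) := by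
  obtain ⟨a', b', hab⟩ := (maxPeriod_spec σ (p ^ (j + 1)) (Nat.one_le_pow _ _ hp.pos)).2
  obtain ⟨a, rfl⟩ := intCast_surj _ a'
  obtain ⟨b, rfl⟩ := intCast_surj _ b'
  have h1 := period_spec hp hσ a b j hj
  have h2 := period_spec hp hσ a b (j + 1) (by omega)
  have h3 := ((h1.2 _).mpr (dvd_refl _)).step hj
  have h4 := Nat.le_of_dvd (Nat.mul_pos hp.pos h1.1) ((h2.2 _).mp h3)
  rw [hab]
  exact h4.trans (Nat.mul_le_mul_left _ ((maxPeriod_spec σ (p ^ j) (Nat.one_le_pow _ _ hp.pos)).1 _ _))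

theorem maxPeriod_le_pow {p : ℕ} (hp : p.Prime) {σ : ℕ} (hσ : 1 ≤ σ) (j : ℕ) :
    maxPeriod σ (p ^ (j + 1)) ≤ p ^ j * maxPeriod σ (p ^ 1) := by
  induction j with
  | zero => simp
  | succ j ih =>
    calc maxPeriod σ (p ^ (j + 1 + 1)) ≤ p * maxPeriod σ (p ^ (j + 1)) := maxPeriod_le hp hσ _ (by omega)
      _ ≤ p * (p ^ j * maxPeriod σ (p ^ 1)) := Nat.mul_le_mul_left _ ih
      _ = _ := by ring

/-- the key existence statement -/
theorem exists_good {p : ℕ} (hp : p.Prime) (hp2 : p ≠ 2) {σ : ℕ} (hσ : 1 ≤ σ) :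
    ∃ a b : ℤ, period σ (p ^ 1) (a : ZMod (p ^ 1)) (b : ZMod (p ^ 1)) = maxPeriod σ (p ^ 1) ∧
      ¬ IsPer ((p : AZ σ) ^ 2) (uZ σ a b) (maxPeriod σ (p ^ 1)) := by
  obtain ⟨w, hw, hwper⟩ := exists_special hp hp2 hσ
  set T := maxPeriod σ (p ^ 1) with hT
  have hp3 : 3 ≤ p := by
    have := hp.two_le
    omega
  have hppos : 1 ≤ p ^ 1 := Nat.one_le_pow _ _ hp.pos
  -- the special rule
  have hws := period_spec hp hσ w w 1 le_rfl
  have hwd : σ ∣ period σ (p ^ 1) (w : ZMod (p ^ 1)) (w : ZMod (p ^ 1)) ∧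
      (p - 1) ∣ period σ (p ^ 1) (w : ZMod (p ^ 1)) (w : ZMod (p ^ 1)) := by
    apply hwper
    have := (hws.2 _).mpr (dvd_refl _)
    simpa using this
  have hTw : period σ (p ^ 1) (w : ZMod (p ^ 1)) (w : ZMod (p ^ 1)) ≤ T :=
    (maxPeriod_spec σ (p ^ 1) hppos).1 _ _
  have hT2 : 2 ≤ T := by
    have := Nat.le_of_dvd hws.1 hwd.2
    omega
  obtain ⟨a', b', hab⟩ := (maxPeriod_spec σ (p ^ 1) hppos).2
  obtain ⟨a0, rfl⟩ := intCast_surj _ a'
  obtain ⟨b0, rfl⟩ := intCast_surj _ b'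
  have hprimeZ := Nat.prime_iff_prime_int.mp hp
  obtain ⟨K, e, hK1, hK2, he, hKe⟩ := exists_isPer hp hσ a0 b0
  have h0s := period_spec hp hσ a0 b0 1 le_rfl
  rw [← hab] at h0s
  have hnotOne : ∀ a b : ℤ, period σ (p ^ 1) (a : ZMod (p ^ 1)) (b : ZMod (p ^ 1)) = T →
      ∀ L, ¬ (p : AZ σ) ∣ uZ σ a b ^ L := by
    intro a b hper L hL
    have h1s := period_spec hp hσ a b 1 le_rfl
    rw [hper] at h1s
    have h2 : IsPer ((p : AZ σ) ^ 1) (uZ σ a b) 1 := by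
      refine ⟨L, ?_⟩
      rw [pow_one]
      have : uZ σ a b ^ (1 + L) - uZ σ a b ^ L = uZ σ a b ^ L * (uZ σ a b - 1) := by ring
      rw [this]
      exact Dvd.dvd.mul_right hL _
    have h3 := Nat.le_of_dvd one_pos ((h1s.2 1).mp h2)
    omega
  rcases Nat.eq_zero_or_pos K with hK0 | hKpos
  · -- p does not divide σ
    subst hK0
    have hTd : T ∣ p ^ e - 1 := by
      rw [← h0s.2]
      simpa using hKe
    have hTcop : ¬ p ∣ T := by
      intro h
      have h1 := h.trans hTd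
      have h2 : p ∣ p ^ e := dvd_pow_self _ (by omega)
      have h3 : 1 ≤ p ^ e := Nat.one_le_pow _ _ hp.pos
      have h4 : p ∣ p ^ e - (p ^ e - 1) := Nat.dvd_sub h2 h1
      have h5 : p ^ e - (p ^ e - 1) = 1 := by omega
      rw [h5] at h4
      exact hp.one_lt.ne' (Nat.dvd_one.mp h4)
    by_cases hcase : IsPer ((p : AZ σ) ^ 2) (uZ σ a0 b0) T
    · refine ⟨(1 + p) * a0, (1 + p) * b0, ?_, ?_⟩
      · have e1 : (((1 + p) * a0 : ℤ) : ZMod (p ^ 1)) = (a0 : ZMod (p ^ 1)) := by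
          have : ((p : ℕ) : ZMod (p ^ 1)) = 0 := by
            rw [ZMod.natCast_eq_zero_iff]; simp
          push_cast
          rw [this]; ring
        have e2 : (((1 + p) * b0 : ℤ) : ZMod (p ^ 1)) = (b0 : ZMod (p ^ 1)) := by
          have : ((p : ℕ) : ZMod (p ^ 1)) = 0 := by
            rw [ZMod.natCast_eq_zero_iff]; simp
          push_cast
          rw [this]; ring
        rw [e1, e2, ← hab]
      · rintro ⟨l1, hl1⟩
        obtain ⟨l2, hl2⟩ := hcase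
        have hl1' := IsPer.lift hl1 (l1 + l2) (by omega)
        have hl2' := IsPer.lift hl2 (l1 + l2) (by omega)
        set l := l1 + l2
        set u := uZ σ a0 b0 with hu
        have hu' : uZ σ ((1 + p) * a0) ((1 + p) * b0) = (1 + (p : AZ σ)) * u := by
          simp [uZ, hu]
          ring
        rw [hu'] at hl1'
        obtain ⟨z, hz⟩ := Polynomial.powAddExpansion (1 : AZ σ) (p : AZ σ) T
        -- (1+p)^l u^l ((1+p)^T - 1) ≡ 0 mod p^2
        have h5 : (p : AZ σ) ^ 2 ∣ (1 + (p : AZ σ)) ^ l * (u ^ l * ((T : AZ σ) * p)) := by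
          have h6 : (1 + (p : AZ σ)) ^ l * (u ^ l * ((T : AZ σ) * p))
              = (((1 + (p : AZ σ)) * u) ^ (T + l) - ((1 + (p : AZ σ)) * u) ^ l)
                - (1 + (p : AZ σ)) ^ (T + l) * (u ^ (T + l) - u ^ l)
                - (p : AZ σ) ^ 2 * ((1 + (p : AZ σ)) ^ l * u ^ l * z) := by
            have h7 : (1 + (p : AZ σ)) ^ T = 1 + (T : AZ σ) * p + z * (p : AZ σ) ^ 2 := by
              rw [hz]; simp
            have h7' : (1 + (p : AZ σ)) ^ (T + l) = (1 + (T : AZ σ) * p + z * (p : AZ σ) ^ 2) *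
                (1 + (p : AZ σ)) ^ l := by
              rw [pow_add (1 + (p : AZ σ)) T l, h7]
            rw [mul_pow, mul_pow, h7']
            ring
          rw [h6]
          exact dvd_sub (dvd_sub hl1' (Dvd.dvd.mul_left hl2' _)) (Dvd.intro _ rfl)
        obtain ⟨y, hy⟩ := h5
        have h8 : (p : AZ σ) * ((1 + (p : AZ σ)) ^ l * (u ^ l * (T : AZ σ))) = (p : AZ σ) * ((p : AZ σ) * y) := by
          linear_combination hy
        have h9 := AZ_reg hp hσ _ _ h8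
        -- (1+p)^l ≡ 1 mod p
        have h10 : (p : AZ σ) ∣ (1 + (p : AZ σ)) ^ l - 1 := by
          have := sub_dvd_pow_sub_pow (1 + (p : AZ σ)) 1 l
          simpa using this
        have h11 : (p : AZ σ) ∣ u ^ l * (T : AZ σ) := by
          have h12 : u ^ l * (T : AZ σ) = (p : AZ σ) * y - ((1 + (p : AZ σ)) ^ l - 1) * (u ^ l * (T : AZ σ)) := by
            rw [← h9]; ring
          rw [h12]
          exact dvd_sub (Dvd.intro _ rfl) (Dvd.dvd.mul_right h10 _)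
        have hTc : IsCoprime (T : ℤ) (p : ℤ) := by
          have : ¬ (p : ℤ) ∣ (T : ℤ) := by exact_mod_cast hTcop
          exact (hprimeZ.coprime_iff_not_dvd.mpr this).symm
        obtain ⟨c1, c2, hc⟩ := hTc
        have h13 : ((c1 * (T : ℤ) + c2 * (p : ℤ) : ℤ) : AZ σ) = 1 := by rw [hc]; simp
        push_cast at h13
        apply hnotOne a0 b0 hab.symm l
        have h14 : u ^ l = (c1 : AZ σ) * (u ^ l * (T : AZ σ)) + (p : AZ σ) * ((c2 : AZ σ) * u ^ l) := by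
          linear_combination (-u ^ l) * h13
        rw [h14]
        exact dvd_add (Dvd.dvd.mul_left h11 _) (Dvd.intro _ rfl)
    · exact ⟨a0, b0, hab.symm, hcase⟩
  · -- p divides σ
    obtain ⟨k, rfl⟩ := Nat.exists_eq_add_of_le hKpos
    -- choose a nondegenerate rule
    have hnd : ∃ a b : ℤ, period σ (p ^ 1) (a : ZMod (p ^ 1)) (b : ZMod (p ^ 1)) = T ∧
        IsCoprime a (p : ℤ) ∧ IsCoprime b (p : ℤ) := by
      by_cases hdeg : (p : ℤ) ∣ a0 ∨ (p : ℤ) ∣ b0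
      · refine ⟨w, w, ?_, hw, hw⟩
        have h1 : IsPer ((p : AZ σ) ^ 1) (uZ σ a0 b0)
            (period σ (p ^ 1) (w : ZMod (p ^ 1)) (w : ZMod (p ^ 1))) := by
          rw [pow_one]
          exact isPer_degenerate hp hwd.1 hwd.2 hdeg
        have h2 := Nat.le_of_dvd hws.1 ((h0s.2 _).mp h1)
        exact le_antisymm hTw h2
      · push Not at hdeg
        exact ⟨a0, b0, hab.symm, (hprimeZ.coprime_iff_not_dvd.mpr hdeg.1).symm,
          (hprimeZ.coprime_iff_not_dvd.mpr hdeg.2).symm⟩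
    obtain ⟨a, b, hper, ha, hb⟩ := hnd
    refine ⟨a, b, hper, ?_⟩
    intro hcon
    obtain ⟨K', e', hK1', hK2', he', hKe'⟩ := exists_isPer hp hσ a b
    have h1s := period_spec hp hσ a b 1 le_rfl
    rw [hper] at h1s
    have hTd : T ∣ p ^ K' * (p ^ e' - 1) := by
      rw [← h1s.2]
      simpa using hKe'
    obtain ⟨i, t, ht, hTt⟩ := Nat.exists_eq_pow_mul_and_not_dvd (by omega : T ≠ 0) p hp.ne_one
    have hcop' : Nat.Coprime (p ^ i) (p ^ e' - 1) := by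
      apply Nat.Coprime.pow_left
      rw [Nat.Prime.coprime_iff_not_dvd hp]
      intro h
      have h2 : p ∣ p ^ e' := dvd_pow_self _ (by omega)
      have h3 : 1 ≤ p ^ e' := Nat.one_le_pow _ _ hp.pos
      have h4 : p ∣ p ^ e' - (p ^ e' - 1) := Nat.dvd_sub h2 h
      have h5 : p ^ e' - (p ^ e' - 1) = 1 := by omega
      rw [h5] at h4
      exact hp.one_lt.ne' (Nat.dvd_one.mp h4)
    have hi : p ^ i ∣ p ^ K' := by
      have h2 : p ^ i ∣ p ^ K' * (p ^ e' - 1) := by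
        refine Dvd.dvd.trans ?_ hTd
        exact ⟨t, hTt⟩
      exact hcop'.dvd_of_dvd_mul_right h2
    obtain ⟨d, hd⟩ := hi
    have hK'1 : K' = 1 + k := by
      have g1 : ¬ K' < 1 + k := by
        intro h
        exact hK2' (Dvd.dvd.trans (pow_dvd_pow p h) hK1)
      have g2 : ¬ 1 + k < K' := by
        intro h
        exact hK2 (Dvd.dvd.trans (pow_dvd_pow p h) hK1')
      omega
    have h2 : IsPer ((p : AZ σ) ^ 2) (uZ σ a b) (p ^ (k + 1) * t) := by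
      have h3 := hcon.mul d
      have e1 : d * T = p ^ (k + 1) * t := by
        rw [hTt]
        have : p ^ (k + 1) = p ^ i * d := by rw [← hd, hK'1, add_comm]
        rw [this]; ring
      rwa [e1] at h3
    have htc : IsCoprime (t : ℤ) (p : ℤ) := by
      have : ¬ (p : ℤ) ∣ (t : ℤ) := by exact_mod_cast ht
      exact (hprimeZ.coprime_iff_not_dvd.mpr this).symm
    have hdvdσ : p ^ (k + 1) ∣ σ := by rw [add_comm]; exact hK1
    obtain ⟨L, hL⟩ := claimC hp hσ hdvdσ ha hb htc h2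
    exact hnotOne a b hper L hL

/-- exact value for odd primes: `π_σ(p^m) = p^(m-1) π_σ(p)` (lower bound). -/
theorem le_maxPeriod {p : ℕ} (hp : p.Prime) (hp2 : p ≠ 2) {σ : ℕ} (hσ : 1 ≤ σ) (j : ℕ) :
    p ^ j * maxPeriod σ (p ^ 1) ≤ maxPeriod σ (p ^ (j + 1)) := by
  obtain ⟨a, b, hper, hnot⟩ := exists_good hp hp2 hσ
  set T := maxPeriod σ (p ^ 1) with hT
  have hodd : Odd p := by
    rcases hp.eq_two_or_odd' with h | h
    · exact absurd h hp2
    · exact h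
  have h1s := period_spec hp hσ a b 1 le_rfl
  rw [hper] at h1s
  have hTpos := h1s.1
  -- p^i T is a period mod p^(i+1) and not one mod p^(i+2)
  have hup : ∀ i, IsPer ((p : AZ σ) ^ (i + 1)) (uZ σ a b) (p ^ i * T) := by
    intro i
    induction i with
    | zero =>
      have := (h1s.2 T).mpr (dvd_refl _)
      simpa using this
    | succ i ih =>
      have := ih.step (by omega)
      rwa [← mul_assoc, ← pow_succ'] at this
  have hdown : ∀ i, ¬ IsPer ((p : AZ σ) ^ (i + 2)) (uZ σ a b) (p ^ i * T) := by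
    intro i
    induction i with
    | zero => simpa using hnot
    | succ i ih =>
      intro h
      apply ih
      have e : p ^ (i + 1) * T = p * (p ^ i * T) := by ring
      rw [e] at h
      exact IsPer.down hodd (AZ_reg hp hσ) (by omega) (hup i) h
  rcases Nat.eq_zero_or_pos j with hj | hj
  · subst hj; simp [hT]
  · obtain ⟨i, rfl⟩ := Nat.exists_eq_add_of_le hj
    have hms := period_spec hp hσ a b (1 + i + 1) (by omega)
    set P := period σ (p ^ (1 + i + 1)) (a : ZMod (p ^ (1 + i + 1))) (b : ZMod (p ^ (1 + i + 1))) with hP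
    have hPup : P ∣ p ^ (1 + i) * T := (hms.2 _).mp (hup (1 + i))
    have hTP : T ∣ P := by
      rw [← h1s.2]
      exact IsPer.mono (pow_dvd_pow _ (by omega)) ((hms.2 P).mpr (dvd_refl _))
    obtain ⟨c, hc⟩ := hTP
    have hcd : c ∣ p ^ (1 + i) := by
      rw [hc, mul_comm T c] at hPup
      exact Nat.dvd_of_mul_dvd_mul_right hTpos hPup
    obtain ⟨r, hr, hcr⟩ := (Nat.dvd_prime_pow hp).mp hcd
    have hrle : r = 1 + i := by
      by_contra hne
      have hlt : r ≤ i := by omega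
      apply hdown i
      have e : i + 2 = 1 + i + 1 := by ring
      rw [e]
      have h2 : P ∣ p ^ i * T := by
        rw [hc, hcr, mul_comm]
        exact Nat.mul_dvd_mul_right (pow_dvd_pow _ hlt) _
      exact (hms.2 _).mpr h2
    have hPeq : P = p ^ (1 + i) * T := by rw [hc, hcr, hrle, mul_comm]
    rw [← hPeq, hP]
    exact (maxPeriod_spec σ (p ^ (1 + i + 1)) (Nat.one_le_pow _ _ hp.pos)).1 _ _

/-- **Answer to Q1 (the statement is true).** If `p` is a prime and there are `σ ≥ 1`, `m ≥ 2` with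
`π_σ(p^m) < ub_σ(p^m) = p * π_σ(p^(m-1))`, then `p = 2`. -/
theorem result : ∀ p : ℕ, p.Prime →
    (∃ σ m : ℕ, 1 ≤ σ ∧ 2 ≤ m ∧ maxPeriod σ (p ^ m) < p * maxPeriod σ (p ^ (m - 1))) →
    p = 2 := by
  intro p hp h
  by_contra hp2
  obtain ⟨σ, m, hσ, hm, hlt⟩ := h
  obtain ⟨i, rfl⟩ := Nat.exists_eq_add_of_le hm
  have h1 := le_maxPeriod hp hp2 hσ (1 + i)
  have h2 := maxPeriod_le_pow hp hσ i
  have e1 : 1 + i + 1 = 2 + i := by ring
  have e2 : 2 + i - 1 = i + 1 := by omega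
  rw [e1] at h1
  rw [e2] at hlt
  have h3 : p * maxPeriod σ (p ^ (i + 1)) ≤ p ^ (1 + i) * maxPeriod σ (p ^ 1) := by
    calc p * maxPeriod σ (p ^ (i + 1)) ≤ p * (p ^ i * maxPeriod σ (p ^ 1)) := Nat.mul_le_mul_left _ h2
      _ = _ := by ring
  omega


end Pool.Agent.Results.MP_25c86d_nt.OddPrimes
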